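import Mathlib
import Pool.Agent.V1113.WittCore
import Pool.Agent.V1113.WittSym
import Pool.Agent.V1113.WeylPres

/-!
# A map from `U(W_{-1})` to the second Weyl algebra that does not factor

`W_{-1} = ℂ[t]∂` acts on the symmetric square of the line, whose coordinate ring is `ℂ[s, p]` with
`s = t₁ + t₂` and `p = t₁ t₂`. The corresponding map from `U(W_{-1})` to the Weyl algebra in `s, p`
does not factor through any of the maps `Ψ`.
-/

set_option autoImplicit false

namespace Pool.Agent.Results.MP_8879ae_al.NoFactorWm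

open Polynomial TensorProduct
open Pool.Agent.V1113.Witt Pool.Agent.V1113.WeylPres

universe u

/-- The polynomial `f^{(i+1)} / (i+1)!`. -/
noncomputable def taylorCoeff (i : ℕ) (f : ℂ[X]) : ℂ[X] :=
  C ((i + 1).factorial : ℂ)⁻¹ * derivative^[i + 1] f

/-- The element `Ψ_n(f∂) = ∑_j (f(t_j) ∂_j ⊗ 1 + ∑_{i < n_j} f^{(i+1)}(t_j) / (i+1)! ⊗ v_{j,i})` of
`A_l ⊗ U`, for elements `v_{j,i}` of an algebra `U`. -/
noncomputable def psi {l : ℕ} (n : Fin l → ℕ) {U : Type u} [Ring U] [Algebra ℂ U]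
    (v : Fin l → ℕ → U) (f : ℂ[X]) : Weyl l ⊗[ℂ] U :=
  ∑ j : Fin l, ((aeval (t j) f * d j) ⊗ₜ[ℂ] (1 : U) +
    ∑ i ∈ Finset.range (n j), aeval (t j) (taylorCoeff i f) ⊗ₜ[ℂ] v j i)

theorem aeval_comm {l : ℕ} (j k : Fin l) (f : ℂ[X]) : aeval (t j) f * t k = t k * aeval (t j) f := by
  induction f using Polynomial.induction_on' with
  | add p q hp hq => rw [map_add, add_mul, mul_add, hp, hq]
  | monomial n a =>
    rw [aeval_monomial, mul_assoc, Commute.eq (Commute.pow_left (t_comm j k) n), ← mul_assoc,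
      Algebra.commutes, mul_assoc]

theorem comm_sum {R ι : Type*} [Ring R] (s : Finset ι) (a : ι → R) (x : R) :
    (∑ j ∈ s, a j) * x - x * ∑ j ∈ s, a j = ∑ j ∈ s, (a j * x - x * a j) := by
  rw [Finset.sum_mul, Finset.mul_sum, ← Finset.sum_sub_distrib]

theorem comm_add {R : Type*} [Ring R] (a b x : R) :
    (a + b) * x - x * (a + b) = (a * x - x * a) + (b * x - x * b) := by
  rw [add_mul, mul_add, add_sub_add_comm]

theorem comm_tmul {l : ℕ} {U : Type u} [Ring U] [Algebra ℂ U] (a x : Weyl l) (u : U) :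
    (a ⊗ₜ[ℂ] u) * (x ⊗ₜ[ℂ] (1 : U)) - (x ⊗ₜ[ℂ] (1 : U)) * (a ⊗ₜ[ℂ] u) =
      (a * x - x * a) ⊗ₜ[ℂ] u := by
  rw [Algebra.TensorProduct.tmul_mul_tmul, Algebra.TensorProduct.tmul_mul_tmul, mul_one, one_mul,
    TensorProduct.sub_tmul]

theorem psi_comm {l : ℕ} (n : Fin l → ℕ) {U : Type u} [Ring U] [Algebra ℂ U]
    (v : Fin l → ℕ → U) (f : ℂ[X]) (k : Fin l) :
    psi n v f * (t k ⊗ₜ[ℂ] (1 : U)) - (t k ⊗ₜ[ℂ] (1 : U)) * psi n v f =
      aeval (t k) f ⊗ₜ[ℂ] (1 : U) := by
  classical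
  refine (comm_sum (R := Weyl l ⊗[ℂ] U) _ _ _).trans ?_
  have h : ∀ j : Fin l, (((aeval (t j) f * d j) ⊗ₜ[ℂ] (1 : U) +
      ∑ i ∈ Finset.range (n j), aeval (t j) (taylorCoeff i f) ⊗ₜ[ℂ] v j i) *
        (t k ⊗ₜ[ℂ] (1 : U)) - (t k ⊗ₜ[ℂ] (1 : U)) * ((aeval (t j) f * d j) ⊗ₜ[ℂ] (1 : U) +
      ∑ i ∈ Finset.range (n j), aeval (t j) (taylorCoeff i f) ⊗ₜ[ℂ] v j i)) =
      (aeval (t j) f * (d j * t k - t k * d j)) ⊗ₜ[ℂ] (1 : U) := by
    intro j
    refine (comm_add (R := Weyl l ⊗[ℂ] U) _ _ _).trans ?_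
    have h1 := comm_sum (Finset.range (n j))
      (fun i => aeval (t j) (taylorCoeff i f) ⊗ₜ[ℂ] v j i) (t k ⊗ₜ[ℂ] (1 : U))
    rw [h1, comm_tmul, Finset.sum_eq_zero, add_zero]
    · congr 1
      rw [mul_sub, mul_assoc, ← mul_assoc (t k), ← aeval_comm, mul_assoc]
    · intro i _
      rw [comm_tmul, aeval_comm, sub_self, TensorProduct.zero_tmul]
  rw [Finset.sum_eq_single k]
  · rw [h, d_t, add_sub_cancel_left, mul_one]
  · intro j _ hj
    rw [h, d_t_ne hj, sub_self, mul_zero, TensorProduct.zero_tmul]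
  · intro h
    exact absurd (Finset.mem_univ k) h

/-! ### The action on the symmetric square -/

theorem apply_eq (D : Derivation ℂ ℂ[X] ℂ[X]) (f : ℂ[X]) : D f = derivative f * D X := by
  have h := D.map_aeval f X
  simpa using h

/-- The coordinate ring `ℂ[s, p]` of the symmetric square. -/
abbrev B : Type := MvPolynomial (Fin 2) ℂ

/-- The first coordinate. -/
noncomputable abbrev s : B := MvPolynomial.X 0

/-- The second coordinate. -/
noncomputable abbrev p : B := MvPolynomial.X 1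

/-- `2 ∂_s + s ∂_p`. -/
noncomputable def D0 : Derivation ℂ B B := MvPolynomial.mkDerivation ℂ ![2, s]

/-- `s ∂_s + 2 p ∂_p`. -/
noncomputable def D1 : Derivation ℂ B B := MvPolynomial.mkDerivation ℂ ![s, 2 * p]

theorem D0_s : D0 s = 2 := by simp [D0]
theorem D0_p : D0 p = s := by simp [D0]
theorem D1_s : D1 s = s := by simp [D1]
theorem D1_p : D1 p = 2 * p := by simp [D1]

theorem hext (D D' : Derivation ℂ B B) (h0 : D s = D' s) (h1 : D p = D' p) : D = D' := by
  apply MvPolynomial.derivation_ext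
  intro i
  fin_cases i
  · exact h0
  · exact h1

/-- The action of `W_{-1}` on the coordinate ring of the symmetric square. -/
noncomputable def act (D : Derivation ℂ ℂ[X] ℂ[X]) : Derivation ℂ B B :=
  vf D0 D1 (aeval (om : K s p) (D X))

theorem act_mk (f : ℂ[X]) : act (Polynomial.mkDerivation ℂ f) = vf D0 D1 (aeval (om : K s p) f) := by
  rw [act, Polynomial.mkDerivation_X]

theorem act_one_s : act (Polynomial.mkDerivation ℂ (1 : ℂ[X])) s = 2 := by
  rw [act_mk, map_one, vf_apply, D0_s, D1_s]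
  simp [QuadraticAlgebra.re_one, QuadraticAlgebra.im_one]

theorem act_rel (f : B) : act (Polynomial.mkDerivation ℂ (X ^ 2 : ℂ[X])) f =
    s * act (Polynomial.mkDerivation ℂ (X ^ 1 : ℂ[X])) f -
      p * act (Polynomial.mkDerivation ℂ (X ^ 0 : ℂ[X])) f := by
  have h1 := vf_rel D0 D1 (1 : K s p) f
  rw [mul_one, ← pow_two] at h1
  rw [act_mk, act_mk, act_mk, aeval_X_pow, aeval_X_pow, aeval_X_pow, pow_one, pow_zero]
  exact h1

theorem act_lie (D E : Derivation ℂ ℂ[X] ℂ[X]) : act ⁅D, E⁆ = ⁅act D, act E⁆ := by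
  rw [act, act, act, vf_lie D0 D1 D0_s D0_p D1_s D1_p hext, Derivation.map_aeval,
    Derivation.map_aeval, lift_om, lift_om, Derivation.commutator_apply, apply_eq D (E X),
    apply_eq E (D X)]
  simp only [map_sub, map_mul, smul_eq_mul]

theorem vec_add (D E : Derivation ℂ B B) : vec (D + E) = vec D + vec E := by
  rw [vec, vec, vec, ← Finset.sum_add_distrib]
  refine Finset.sum_congr rfl fun j _ => ?_
  rw [Derivation.add_apply, map_add, add_mul]

theorem vec_smul (r : ℂ) (D : Derivation ℂ B B) : vec (r • D) = r • vec D := by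
  rw [vec, vec, Finset.smul_sum]
  refine Finset.sum_congr rfl fun j _ => ?_
  rw [Derivation.smul_apply, map_smul, smul_mul_assoc]

section Lift

attribute [local instance 100] LieRing.ofAssociativeRing

/-- The action as a homomorphism of Lie algebras to the Weyl algebra. -/
noncomputable def phiLie : Derivation ℂ ℂ[X] ℂ[X] →ₗ⁅ℂ⁆ Weyl 2 where
  toFun D := vec (act D)
  map_add' D E := by
    rw [← vec_add, act, act, act, Derivation.add_apply, map_add, vf_add]
  map_smul' r D := by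
    rw [RingHom.id_apply, ← vec_smul, act, act, Derivation.smul_apply, map_smul, vf_smul]
  map_lie' := by
    intro D E
    change vec (act ⁅D, E⁆) = vec (act D) * vec (act E) - vec (act E) * vec (act D)
    rw [act_lie, vec_lie]

/-- The homomorphism from `U(W_{-1})` to the second Weyl algebra. -/
noncomputable def phi : UniversalEnvelopingAlgebra ℂ (Derivation ℂ ℂ[X] ℂ[X]) →ₐ[ℂ] Weyl 2 :=
  UniversalEnvelopingAlgebra.lift ℂ phiLie

theorem phi_ι (D : Derivation ℂ ℂ[X] ℂ[X]) :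
    phi (UniversalEnvelopingAlgebra.ι ℂ D) = vec (act D) :=
  UniversalEnvelopingAlgebra.lift_ι_apply ℂ phiLie D

end Lift

/-! ### The contradiction -/

theorem rep_mem (W : Weyl 2) : rep 2 W ∈ nilSub B := by
  have h : W ∈ (nilSub B).comap (rep 2) := by
    have h1 : Algebra.adjoin ℂ (Set.range (t : Fin 2 → Weyl 2) ∪
        Set.range (d : Fin 2 → Weyl 2)) ≤ (nilSub B).comap (rep 2) := by
      refine Algebra.adjoin_le ?_
      rintro _ (⟨j, rfl⟩ | ⟨j, rfl⟩)
      · change rep 2 (t j) ∈ nilSub B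
        rw [rep_t]; exact M_mem_nilSub _
      · change rep 2 (d j) ∈ nilSub B
        rw [rep_d]; exact derivation_mem_nilSub _
    rw [adjoin_gen] at h1
    exact h1 trivial
  exact h

theorem commutant (V : Module.End ℂ B) (h0 : ad (M s) V = 0) (h1 : ad (M p) V = 0) :
    ∃ h, V = M h := by
  have hX : ∀ (i : Fin 2) (x : B), V (MvPolynomial.X i * x) = MvPolynomial.X i * V x := by
    intro i x
    fin_cases i
    · have := congrArg (fun W : Module.End ℂ B => W x) h0
      exact (sub_eq_zero.1 this).symm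
    · have := congrArg (fun W : Module.End ℂ B => W x) h1
      exact (sub_eq_zero.1 this).symm
  refine ⟨V 1, LinearMap.ext fun f => ?_⟩
  change V f = V 1 * f
  induction f using MvPolynomial.induction_on with
  | C a =>
    have : (MvPolynomial.C a : B) = a • 1 := by simp [MvPolynomial.smul_eq_C_mul]
    rw [this, map_smul, mul_smul_comm, mul_one]
  | add p q hp hq => rw [map_add, hp, hq, mul_add]
  | mul_X q i hq => rw [mul_comm, hX, hq]; ring

theorem no_root (h : B) : h ^ 2 - s * h + p ≠ 0 := by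
  intro h0
  have h1 := congrArg (MvPolynomial.aeval ![(0 : ℂ[X]), X]) h0
  simp [s, p] at h1
  have h2 : (MvPolynomial.aeval ![(0 : ℂ[X]), X] h) ^ 2 = - X := eq_neg_of_add_eq_zero_left h1
  have h3 := congrArg natDegree h2
  rw [natDegree_pow, natDegree_neg, natDegree_X] at h3
  omega

/-- There is a homomorphism `φ` from `U(W_{-1})` to the second Weyl algebra such that for no `n`, no
algebra `U` and no elements `v_{j,i}` of `U` there is a ring homomorphism `φ'` from `A_l ⊗ U` to the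
second Weyl algebra which sends `Ψ_n(f∂)` to `φ(f∂)` for all `f`. -/
theorem result :
    ∃ φ : UniversalEnvelopingAlgebra ℂ (Derivation ℂ ℂ[X] ℂ[X]) →ₐ[ℂ] Weyl 2,
      ∀ (l : ℕ) (n : Fin l → ℕ) (U : Type u) [Ring U] [Algebra ℂ U] (v : Fin l → ℕ → U),
        ¬ ∃ φ' : Weyl l ⊗[ℂ] U →+* Weyl 2, ∀ D : Derivation ℂ ℂ[X] ℂ[X],
          φ' (psi n v (D X)) = φ (UniversalEnvelopingAlgebra.ι ℂ D) := by
  refine ⟨phi, fun l n U _ _ v => ?_⟩
  rintro ⟨φ', hφ⟩
  rcases l with _ | l
  · -- the counit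
    have h := hφ (Polynomial.mkDerivation ℂ (1 : ℂ[X]))
    rw [phi_ι, psi, Finset.univ_eq_empty, Finset.sum_empty] at h
    have h0 : vec (act (Polynomial.mkDerivation ℂ (1 : ℂ[X]))) = 0 := by
      rw [← h]; exact map_zero φ'
    have h1 := congrArg (rep 2) h0
    rw [rep_vec, map_zero] at h1
    have h2 : act (Polynomial.mkDerivation ℂ (1 : ℂ[X])) s = 0 :=
      congrArg (fun V : Module.End ℂ B => V s) h1
    rw [act_one_s] at h2
    exact two_ne_zero h2
  · set T : Weyl 2 := φ' (t 0 ⊗ₜ[ℂ] (1 : U)) with hT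
    have key : ∀ k : ℕ, vec (act (Polynomial.mkDerivation ℂ (X ^ k))) * T -
        T * vec (act (Polynomial.mkDerivation ℂ (X ^ k))) = T ^ k := by
      intro k
      have h1 := congrArg φ' (psi_comm n v (X ^ k) 0)
      have h2 := hφ (Polynomial.mkDerivation ℂ (X ^ k))
      rw [Polynomial.mkDerivation_X, phi_ι] at h2
      have h3 : (aeval (t (0 : Fin (l + 1)))) (X ^ k : ℂ[X]) ⊗ₜ[ℂ] (1 : U) =
          (t (0 : Fin (l + 1)) ⊗ₜ[ℂ] (1 : U)) ^ k := by
        rw [Algebra.TensorProduct.tmul_pow, one_pow, aeval_X_pow]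
      rw [h3, map_sub φ', map_mul φ', map_mul φ', h2, map_pow φ'] at h1
      exact h1
    obtain ⟨h, hh⟩ := core (s := s) (p := p) commutant (T := rep 2 T) (rep_mem T)
      (fun k => act (Polynomial.mkDerivation ℂ (X ^ k)))
      (fun k => by
        have h1 := congrArg (rep 2) (key k)
        rw [map_sub (rep 2), map_mul (rep 2), map_mul (rep 2), map_pow (rep 2), rep_vec] at h1
        exact h1)
      act_rel
    exact no_root h hh

end Pool.Agent.Results.MP_8879ae_al.NoFactorWm
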